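import Pool.Agent.Helper94.NM.Defs
import Pool.Agent.Helper2.PGN.End3

/-!
Construction of polarised rational Hodge structures with the Hodge numbers `t D, D ^ 2 - 2 t D, t D`: the base point, the
boosts, matrices that commute with all members of the family near a point.
-/

set_option linter.unusedSectionVars false

open Matrix
open scoped Kronecker

namespace MH

namespace NM94

open PGN

variable {ι : Type*} [Fintype ι] [DecidableEq ι]

/-- the combinatorial data of the base point: `c` is the characteristic function of a set with the fixed point free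
involution `p`, the operator maps the basis vectors of the set to multiples of their partners -/
structure Par (c : ι → ℚ) (p : ι → ι) (s : ι → ℂ) : Prop where
  inv : Function.Involutive p
  cp : ∀ i, c (p i) = c i
  sp : ∀ i, s (p i) = -s i
  c01 : ∀ i, c i = 0 ∨ c i = 1
  s0 : ∀ i, c i = 0 → s i = 0
  p0 : ∀ i, c i = 0 → p i = i
  s1 : ∀ i, c i = 1 → s i * s i = -1
  p1 : ∀ i, c i = 1 → p i ≠ i
  sc : ∀ i, starRingEnd ℂ (s i) = -s i

/-- the operator of the base point -/
def Hb (p : ι → ι) (s : ι → ℂ) : Matrix ι ι ℂ := fun x y => if p x = y then s x else 0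

variable {c : ι → ℚ} {p : ι → ι} {s : ι → ℂ}

theorem Hb_mul (M : Matrix ι ι ℂ) (x y : ι) : (Hb p s * M) x y = s x * M (p x) y := by
  rw [Matrix.mul_apply, Finset.sum_eq_single (p x)]
  · rw [Hb, if_pos rfl]
  · intro k _ hk
    rw [Hb, if_neg (Ne.symm hk), zero_mul]
  · intro h
    exact absurd (Finset.mem_univ _) h

theorem Par.mul_Hb (h : Par c p s) (M : Matrix ι ι ℂ) (x y : ι) : (M * Hb p s) x y = -(M x (p y) * s y) := by
  rw [Matrix.mul_apply, Finset.sum_eq_single (p y)]
  · rw [Hb, if_pos (h.inv y), h.sp, mul_neg]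
  · intro k _ hk
    rw [Hb, if_neg, mul_zero]
    rintro rfl
    exact hk (h.inv k).symm
  · intro hh
    exact absurd (Finset.mem_univ _) hh

theorem Par.sq (h : Par c p s) : Hb p s * Hb p s = Matrix.diagonal fun i => (c i : ℂ) := by
  ext x y
  rw [Hb_mul, Hb, h.inv, h.sp, Matrix.diagonal_apply]
  by_cases hxy : x = y
  · rw [if_pos hxy, if_pos hxy]
    rcases h.c01 x with h0 | h1
    · rw [h.s0 x h0, h0]; simp
    · rw [mul_neg, h.s1 x h1, h1]; simp
  · rw [if_neg hxy, if_neg hxy, mul_zero]

/-- the base point is a structure -/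
theorem Par.gh (h : Par c p s) : GH c (Hb p s) := by
  refine ⟨?_, ?_, ?_, ?_⟩
  · rw [h.sq]
    ext x y
    rw [Matrix.diagonal_mul]
    rcases h.c01 x with h0 | h1
    · rw [Hb, h.s0 x h0, ite_self, mul_zero]
    · rw [h1]; simp
  · ext x y
    rw [Matrix.map_apply, Matrix.neg_apply, Hb]
    split_ifs
    · exact h.sc x
    · simp
  · ext x y
    rw [Matrix.mul_diagonal, Matrix.neg_apply, Matrix.diagonal_mul, Matrix.transpose_apply, Hb, Hb]
    by_cases hxy : p x = y
    · have hyx : p y = x := by rw [← hxy, h.inv]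
      rw [if_pos hxy, if_pos hyx]
      have e1 : s y = -s x := by rw [← hxy, h.sp]
      have e2 : av c y = av c x := by rw [av, av, ← hxy, h.cp]
      rw [e1, e2]
      ring
    · have hyx : ¬ p y = x := fun hh => hxy (by rw [← hh, h.inv])
      rw [if_neg hxy, if_neg hyx, mul_zero, zero_mul, neg_zero]
  · intro v hv
    have h1 : ∀ i, ∃ r : ℝ, 0 < r ∧ av c i * (1 - 2 * (c i : ℂ)) = (r : ℂ) := by
      intro i
      rcases h.c01 i with h0 | h1
      · refine ⟨1, one_pos, ?_⟩
        rw [av, h0]; simp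
      · refine ⟨Real.sqrt 2, Real.sqrt_pos.2 (by norm_num), ?_⟩
        rw [av, h1, r2]
        push_cast
        ring
    choose r hr0 hr using h1
    have h2 : v ⬝ᵥ (Matrix.diagonal (av c) *ᵥ ((1 - (2 : ℂ) • (Hb p s * Hb p s)) *ᵥ star v)) =
        ((∑ i, r i * Complex.normSq (v i) : ℝ) : ℂ) := by
      rw [h.sq, dotProduct, Complex.ofReal_sum]
      refine Finset.sum_congr rfl fun i _ => ?_
      rw [Matrix.mulVec_diagonal, Matrix.sub_mulVec, Matrix.one_mulVec, Matrix.smul_mulVec, Pi.sub_apply, Pi.smul_apply,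
        Matrix.mulVec_diagonal, Pi.star_apply, Complex.star_def, Complex.ofReal_mul, ← Complex.mul_conj, ← hr, smul_eq_mul]
      ring
    rw [h2, Complex.ofReal_re]
    obtain ⟨i, hi⟩ : ∃ i, v i ≠ 0 := by
      by_contra hcon
      push Not at hcon
      exact hv (funext hcon)
    refine Finset.sum_pos' (fun j _ => ?_) ⟨i, Finset.mem_univ i, ?_⟩
    · exact mul_nonneg (hr0 j).le (Complex.normSq_nonneg _)
    · exact mul_pos (hr0 i) (Complex.normSq_pos.2 hi)

/-! ### the elementary matrices -/

/-- the infinitesimal boost -/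
noncomputable def F (j m : ι) : Matrix ι ι ℂ := fun x y =>
  (if x = j then (if y = m then 1 else 0) else 0) + r2 * (if x = m then (if y = j then 1 else 0) else 0)

theorem mul_F (b : Matrix ι ι ℂ) (j m x y : ι) : (b * F j m) x y =
    (if y = m then b x j else 0) + r2 * (if y = j then b x m else 0) := by
  rw [Matrix.mul_apply]
  simp only [F, mul_add, Finset.sum_add_distrib]
  congr 1
  · rw [Finset.sum_eq_single j]
    · rw [if_pos rfl]; split_ifs <;> simp
    · intro k _ hk
      rw [if_neg hk, mul_zero]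
    · intro h; exact absurd (Finset.mem_univ _) h
  · rw [Finset.sum_eq_single m]
    · rw [if_pos rfl]; split_ifs <;> simp [mul_comm]
    · intro k _ hk
      rw [if_neg hk, mul_zero, mul_zero]
    · intro h; exact absurd (Finset.mem_univ _) h

theorem F_mul (b : Matrix ι ι ℂ) (j m x y : ι) : (F j m * b) x y =
    (if x = j then b m y else 0) + r2 * (if x = m then b j y else 0) := by
  rw [Matrix.mul_apply]
  simp only [F, add_mul, Finset.sum_add_distrib]
  congr 1
  · by_cases hx : x = j
    · simp only [if_pos hx]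
      rw [Finset.sum_eq_single m]
      · rw [if_pos rfl, one_mul]
      · intro k _ hk
        rw [if_neg hk, zero_mul]
      · intro h; exact absurd (Finset.mem_univ _) h
    · simp only [if_neg hx, zero_mul, Finset.sum_const_zero]
  · by_cases hx : x = m
    · simp only [if_pos hx]
      rw [Finset.sum_eq_single j]
      · rw [if_pos rfl, mul_one]
      · intro k _ hk
        rw [if_neg hk, mul_zero, zero_mul]
      · intro h; exact absurd (Finset.mem_univ _) h
    · simp only [if_neg hx, mul_zero, zero_mul, Finset.sum_const_zero]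

/-- a matrix that commutes with the infinitesimal boosts is a scalar -/
theorem scalar_of_F {b : Matrix ι ι ℂ} (hb : ∀ j m, c j = 1 → c m = 0 → b * F j m = F j m * b)
    (hc : ∀ i, c i = 0 ∨ c i = 1) {j0 j1 m0 : ι} (hj0 : c j0 = 1) (hj1 : c j1 = 1) (hj : j0 ≠ j1) (hm0 : c m0 = 0) :
    ∃ z : ℂ, b = z • 1 := by
  have hne : ∀ {j m : ι}, c j = 1 → c m = 0 → j ≠ m := by
    rintro j m h1 h0 rfl
    rw [h1] at h0
    exact one_ne_zero h0
  have key : ∀ j m x y, c j = 1 → c m = 0 → (if y = m then b x j else 0) + r2 * (if y = j then b x m else 0) =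
      (if x = j then b m y else 0) + r2 * (if x = m then b j y else 0) := by
    intro j m x y h1 h0
    rw [← mul_F, ← F_mul, hb j m h1 h0]
  have k1 : ∀ j m, c j = 1 → c m = 0 → b j j = b m m := by
    intro j m h1 h0
    have h := key j m j m h1 h0
    rw [if_pos rfl, if_neg (hne h1 h0).symm, if_pos rfl, if_neg (hne h1 h0)] at h
    simpa using h
  have k2 : ∀ j m x, c j = 1 → c m = 0 → x ≠ j → x ≠ m → b x j = 0 := by
    intro j m x h1 h0 hx1 hx2
    have h := key j m x m h1 h0
    rw [if_pos rfl, if_neg (hne h1 h0).symm, if_neg hx1, if_neg hx2] at h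
    simpa using h
  have k3 : ∀ j m x, c j = 1 → c m = 0 → x ≠ j → x ≠ m → b x m = 0 := by
    intro j m x h1 h0 hx1 hx2
    have h := key j m x j h1 h0
    rw [if_neg (hne h1 h0), if_pos rfl, if_neg hx1, if_neg hx2] at h
    simp only [zero_add, mul_zero, add_zero] at h
    exact (mul_eq_zero.1 h).resolve_left r2_ne
  have k4 : ∀ j m, c j = 1 → c m = 0 → b m j = r2 * b j m := by
    intro j m h1 h0
    have h := key j m m m h1 h0
    rw [if_pos rfl, if_neg (hne h1 h0).symm, if_pos rfl] at h
    simpa using h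
  have k5 : ∀ m x, c m = 0 → x ≠ m → b x m = 0 := by
    intro m x h0 hx
    by_cases hx0 : x = j0
    · exact k3 j1 m x hj1 h0 (fun h => hj (by rw [← hx0, h])) hx
    · exact k3 j0 m x hj0 h0 hx0 hx
  have k6 : ∀ j x, c j = 1 → x ≠ j → b x j = 0 := by
    intro j x h1 hx
    by_cases hx0 : x = m0
    · rw [hx0, k4 j m0 h1 hm0, k5 m0 j hm0 (hne h1 hm0), mul_zero]
    · exact k2 j m0 x h1 hm0 hx hx0
  refine ⟨b m0 m0, ?_⟩
  ext x y
  rw [Matrix.smul_apply, Matrix.one_apply, smul_eq_mul]
  by_cases hxy : x = y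
  · subst hxy
    rw [if_pos rfl, mul_one]
    rcases hc x with h0 | h1
    · rw [← k1 j0 x hj0 h0, k1 j0 m0 hj0 hm0]
    · exact k1 x m0 h1 hm0
  · rw [if_neg hxy, mul_zero]
    rcases hc y with h0 | h1
    · exact k5 y x h0 hxy
    · exact k6 y x h1 hxy

/-- the commutator of the operator and an infinitesimal boost -/
theorem Par.F_Hb (h : Par c p s) {j m : ι} (hj : c j = 1) (hm : c m = 0) (x y : ι) :
    (F j m * Hb p s) x y = s j * (r2 * (if x = m then (if y = p j then 1 else 0) else 0)) := by
  have hne : j ≠ m := by rintro rfl; rw [hj] at hm; exact one_ne_zero hm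
  rw [h.mul_Hb, F]
  have e1 : (if p y = m then (1 : ℂ) else 0) * s y = 0 := by
    split_ifs with hy
    · have : y = m := by rw [← h.inv y, hy, h.p0 m hm]
      rw [this, h.s0 m hm, mul_zero]
    · rw [zero_mul]
  have e2 : (if p y = j then (1 : ℂ) else 0) * s y = -(s j * (if y = p j then (1 : ℂ) else 0)) := by
    by_cases hy : p y = j
    · have hy' : y = p j := by rw [← hy, h.inv]
      rw [if_pos hy, if_pos hy', one_mul, mul_one, hy', h.sp]
    · have hy' : ¬ y = p j := fun hh => hy (by rw [hh, h.inv])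
      rw [if_neg hy, if_neg hy', zero_mul, mul_zero, neg_zero]
  by_cases hx : x = m
  · have hx' : ¬ x = j := fun hh => hne (by rw [← hh, hx])
    rw [if_neg hx', if_pos hx, if_pos hx, zero_add, mul_assoc, e2]
    ring
  · rw [if_neg hx, if_neg hx, mul_zero, add_zero, mul_zero]
    by_cases hx' : x = j
    · rw [if_pos hx', e1]; simp
    · rw [if_neg hx']; simp

theorem Par.Hb_F (h : Par c p s) {j m : ι} (_hj : c j = 1) (hm : c m = 0) (x y : ι) :
    (Hb p s * F j m) x y = -(s j * (if x = p j then (if y = m then 1 else 0) else 0)) := by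
  rw [Hb_mul, F]
  have e1 : s x * (if p x = m then (if y = j then (1 : ℂ) else 0) else 0) = 0 := by
    split_ifs with hx hy
    · have : x = m := by rw [← h.inv x, hx, h.p0 m hm]
      rw [this, h.s0 m hm, zero_mul]
    · rw [mul_zero]
    · rw [mul_zero]
  have e2 : s x * (if p x = j then (if y = m then (1 : ℂ) else 0) else 0) =
      -(s j * (if x = p j then (if y = m then 1 else 0) else 0)) := by
    by_cases hx : p x = j
    · have hx' : x = p j := by rw [← hx, h.inv]
      rw [if_pos hx, if_pos hx', hx', h.sp]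
      ring
    · have hx' : ¬ x = p j := fun hh => hx (by rw [hh, h.inv])
      rw [if_neg hx, if_neg hx']
      simp
  calc s x * ((if p x = j then (if y = m then (1 : ℂ) else 0) else 0) +
        r2 * (if p x = m then (if y = j then 1 else 0) else 0))
      = s x * (if p x = j then (if y = m then (1 : ℂ) else 0) else 0) +
        r2 * (s x * (if p x = m then (if y = j then 1 else 0) else 0)) := by ring
    _ = _ := by rw [e1, e2, mul_zero, add_zero]

theorem Par.comm_F (h : Par c p s) {j m : ι} (hj : c j = 1) (hm : c m = 0) :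
    F j m * Hb p s - Hb p s * F j m = s j • F (p j) m := by
  ext x y
  rw [Matrix.sub_apply, h.F_Hb hj hm, h.Hb_F hj hm, Matrix.smul_apply, F, smul_eq_mul]
  ring

/-- the projection on the plane of the boost -/
def Sd (j m : ι) : Matrix ι ι ℂ := Matrix.diagonal fun i => if i = j ∨ i = m then 1 else 0

theorem Par.F_Hb_Sd (h : Par c p s) {j m : ι} (hj : c j = 1) (hm : c m = 0) : F j m * Hb p s * Sd j m = 0 := by
  ext x y
  rw [Sd, Matrix.mul_diagonal, h.F_Hb hj hm, Matrix.zero_apply]
  by_cases hy : y = p j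
  · have h1 : ¬ (y = j ∨ y = m) := by
      rintro (h2 | h2)
      · exact h.p1 j hj (by rw [← hy, h2])
      · have h3 := h.cp j
        rw [← hy, h2, hm, hj] at h3
        exact zero_ne_one h3
    rw [if_neg h1, mul_zero]
  · rw [if_neg hy]
    simp

theorem Par.Sd_Hb_F (h : Par c p s) {j m : ι} (hj : c j = 1) (hm : c m = 0) : Sd j m * Hb p s * F j m = 0 := by
  ext x y
  rw [mul_assoc, Sd, Matrix.diagonal_mul, h.Hb_F hj hm, Matrix.zero_apply]
  by_cases hx : x = p j
  · have h1 : ¬ (x = j ∨ x = m) := by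
      rintro (h2 | h2)
      · exact h.p1 j hj (by rw [← hx, h2])
      · have h3 := h.cp j
        rw [← hx, h2, hm, hj] at h3
        exact zero_ne_one h3
    rw [if_neg h1, zero_mul]
  · rw [if_neg hx]
    simp

/-- the matrix of a boost -/
theorem rC_bst {j m : ι} (hjm : j ≠ m) (u : ℝ) :
    PGN.rC (bst j m u) = 1 + ((cc u : ℂ) - 1) • Sd j m + (u : ℂ) • F j m := by
  ext x y
  rw [PGN.rC, Matrix.map_apply, Matrix.add_apply, Matrix.add_apply, Matrix.smul_apply, Matrix.smul_apply, Sd, Matrix.one_apply,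
    Matrix.diagonal_apply, F, bst]
  simp only [smul_eq_mul]
  have hr : (algebraMap ℝ ℂ) (Real.sqrt 2 * u) = r2 * u := by
    rw [r2, map_mul]; rfl
  by_cases h0 : x = j
  · subst h0
    rw [if_pos rfl, if_pos rfl]
    by_cases hy : y = x
    · subst hy
      simp [hjm]
    · by_cases hy' : y = m
      · subst hy'
        simp [hy, Ne.symm hy]
      · simp [hy, hy', Ne.symm hy, hjm]
  · rw [if_neg h0]
    by_cases hx : x = m
    · subst hx
      rw [if_pos rfl]
      by_cases hy : y = x
      · subst hy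
        simp [Ne.symm hjm]
      · by_cases hy' : y = j
        · subst hy'
          rw [if_neg hy, if_pos rfl, hr]
          simp [Ne.symm hy]
          ring
        · simp [hy, hy', Ne.symm hy, h0]
    · rw [if_neg hx]
      by_cases hxy : x = y
      · subst hxy
        simp [h0, hx]
      · simp [hxy, h0, hx]

theorem Par.odd (h : Par c p s) {j m : ι} (hj : c j = 1) (hm : c m = 0) (u : ℝ) :
    PGN.rC (bst j m u) * Hb p s * PGN.rC (bst j m (-u)) - PGN.rC (bst j m (-u)) * Hb p s * PGN.rC (bst j m u) =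
      (2 * (u : ℂ) * s j) • F (p j) m := by
  have hne : j ≠ m := by rintro rfl; rw [hj] at hm; exact one_ne_zero hm
  obtain ⟨A, hA⟩ : ∃ A, A = 1 + ((cc u : ℂ) - 1) • Sd j m := ⟨_, rfl⟩
  have h1 : PGN.rC (bst j m u) = A + (u : ℂ) • F j m := by rw [rC_bst hne, hA]
  have h2 : PGN.rC (bst j m (-u)) = A - (u : ℂ) • F j m := by
    rw [rC_bst hne, cc_neg, hA]
    push_cast
    rw [neg_smul, ← sub_eq_add_neg]
  have h3 : F j m * Hb p s * A = F j m * Hb p s := by
    rw [hA, mul_add, mul_one, mul_smul_comm, h.F_Hb_Sd hj hm, smul_zero, add_zero]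
  have h4 : A * Hb p s * F j m = Hb p s * F j m := by
    rw [hA, add_mul, add_mul, one_mul, smul_mul_assoc, smul_mul_assoc, h.Sd_Hb_F hj hm, smul_zero, add_zero]
  rw [h1, h2]
  have h5 : (A + (u : ℂ) • F j m) * Hb p s * (A - (u : ℂ) • F j m) - (A - (u : ℂ) • F j m) * Hb p s * (A + (u : ℂ) • F j m) =
      (2 * (u : ℂ)) • (F j m * Hb p s * A - A * Hb p s * F j m) := by
    simp only [add_mul, sub_mul, mul_add, mul_sub, smul_mul_assoc, mul_smul_comm, smul_sub]
    module
  rw [h5, h3, h4, h.comm_F hj hm, smul_smul]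

end NM94

end MH
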