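import Pool.Agent.Helper2.PGN.Hw
import Pool.Agent.Helper24.PGN.Fam

/-!
Construction of polarised rational Hodge structures with the Hodge numbers `t D, D ^ 2 - 2 t D, t D`: the norm of a structure
with the Hodge numbers `t, D - 2 t, t` over `ℚ(√2)`. The form and the structure defined by an operator.
-/

set_option linter.unusedSectionVars false

open Matrix
open scoped Kronecker

namespace MH

namespace NM94

open PGN

variable {ι : Type*} [Fintype ι] [DecidableEq ι]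

/-- the coefficients of the form at the first place -/
noncomputable def av (c : ι → ℚ) (i : ι) : ℂ := 1 - c i - r2 * c i

/-- the coefficients of the form at the second place -/
noncomputable def av' (c : ι → ℚ) (i : ι) : ℂ := 1 - c i + r2 * c i

/-- the form in the coordinates `Y` -/
noncomputable def Dl (c : ι → ℚ) : Matrix (ι × ι) (ι × ι) ℂ :=
  Matrix.diagonal (av c) ⊗ₖ Matrix.diagonal (av' c)

/-- the rational part of the coefficients -/
def D0 (c : ι → ℚ) (p : ι × ι) : ℚ := (1 - c p.1) * (1 - c p.2) - 2 * c p.1 * c p.2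

/-- the irrational part of the coefficients -/
def D1 (c : ι → ℚ) (p : ι × ι) : ℚ := c p.2 - c p.1

/-- the matrix of the form -/
def Q4 (c : ι → ℚ) : Matrix (ι × ι) (ι × ι) ℚ :=
  pp ι ℚ * Matrix.diagonal (D0 c) * pp ι ℚ + (2 : ℚ) • (pm ι ℚ * Matrix.diagonal (D0 c) * pm ι ℚ) +
    (2 : ℚ) • (pp ι ℚ * Matrix.diagonal (D1 c) * pm ι ℚ + pm ι ℚ * Matrix.diagonal (D1 c) * pp ι ℚ)

theorem D0_swap (c : ι → ℚ) (p : ι × ι) : D0 c p.swap = D0 c p := by
  simp only [D0, Prod.fst_swap, Prod.snd_swap]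
  ring

theorem D1_swap (c : ι → ℚ) (p : ι × ι) : D1 c p.swap = -D1 c p := by
  simp only [D1, Prod.fst_swap, Prod.snd_swap]
  ring

theorem Dl_eq (c : ι → ℚ) : Dl c = Matrix.diagonal (fun p => (D0 c p : ℂ)) +
    r2 • Matrix.diagonal (fun p => (D1 c p : ℂ)) := by
  ext p q
  rw [Dl, Matrix.diagonal_kronecker_diagonal, Matrix.add_apply, Matrix.smul_apply, Matrix.diagonal_apply,
    Matrix.diagonal_apply, Matrix.diagonal_apply]
  split_ifs
  · simp only [av, av', D0, D1, smul_eq_mul]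
    push_cast
    linear_combination (-(c p.1 * c p.2 : ℂ)) * r2_sq
  · simp

theorem toC_Q4 (c : ι → ℚ) : toC (Q4 c) = L ι * Dl c * L ι := by
  have h0 : ∀ p : ι × ι, (D0 c p.swap : ℂ) = (D0 c p : ℂ) := fun p => by rw [D0_swap]
  have h1 : ∀ p : ι × ι, (D1 c p.swap : ℂ) = -(D1 c p : ℂ) := fun p => by rw [D1_swap]; push_cast; rfl
  obtain ⟨X, hX⟩ : ∃ X, X = Matrix.diagonal (fun p => (D0 c p : ℂ)) := ⟨_, rfl⟩
  obtain ⟨Z, hZ⟩ : ∃ Z, Z = Matrix.diagonal (fun p => (D1 c p : ℂ)) := ⟨_, rfl⟩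
  have e1 := pp_diag_pm (K := ℂ) (d := fun p => (D0 c p : ℂ)) h0
  have e2 := pm_diag_pp (K := ℂ) (d := fun p => (D0 c p : ℂ)) h0
  have e3 := pp_diag_pp (K := ℂ) (d := fun p => (D1 c p : ℂ)) h1
  have e4 := pm_diag_pm (K := ℂ) (d := fun p => (D1 c p : ℂ)) h1
  rw [← hX] at e1 e2
  rw [← hZ] at e3 e4
  have hL : L ι * Dl c * L ι = pp ι ℂ * X * pp ι ℂ + (2 : ℂ) • (pm ι ℂ * X * pm ι ℂ) +
      (2 : ℂ) • (pp ι ℂ * Z * pm ι ℂ + pm ι ℂ * Z * pp ι ℂ) := by
    rw [Dl_eq, ← hX, ← hZ, L]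
    simp only [add_mul, mul_add, smul_mul_assoc, mul_smul_comm, smul_add, smul_smul, e1, e2, e3, e4, smul_zero,
      add_zero, zero_add, r2_sq]
    abel
  rw [hL, Q4]
  have hd0 : (Matrix.diagonal (D0 c)).map (algebraMap ℚ ℂ) = X := by
    rw [hX, Matrix.diagonal_map (map_zero _)]
    rfl
  have hd1 : (Matrix.diagonal (D1 c)).map (algebraMap ℚ ℂ) = Z := by
    rw [hZ, Matrix.diagonal_map (map_zero _)]
    rfl
  have hs : ∀ (c : ℚ) (M : Matrix (ι × ι) (ι × ι) ℚ), toC (c • M) = (c : ℂ) • toC M := by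
    intro c M
    ext i j
    simp [toC]
  simp only [toC] at hs ⊢
  rw [Matrix.map_add _ (map_add _), Matrix.map_add _ (map_add _), hs, hs, Matrix.map_add _ (map_add _), Matrix.map_mul,
    Matrix.map_mul, Matrix.map_mul, Matrix.map_mul, Matrix.map_mul, Matrix.map_mul, Matrix.map_mul, Matrix.map_mul,
    hd0, hd1, pp_map, pm_map]
  norm_num

theorem Q4_symm (c : ι → ℚ) : (Q4 c)ᵀ = Q4 c := by
  rw [Q4, Matrix.transpose_add, Matrix.transpose_add, Matrix.transpose_smul, Matrix.transpose_smul,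
    Matrix.transpose_add]
  simp only [Matrix.transpose_mul, Matrix.diagonal_transpose, pp_transpose, pm_transpose, mul_assoc]
  rw [add_comm (pm ι ℚ * (Matrix.diagonal (D1 c) * pp ι ℚ))]

/-- A structure of weight two on `ℂ ^ ι`, polarised by the diagonal form with the coefficients `av c`, given by the operator
with the eigenvalues `1, 0, -1`. -/
structure GH (c : ι → ℚ) (H : Matrix ι ι ℂ) : Prop where
  cube : H * H * H = H
  conj : H.map (starRingEnd ℂ) = -H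
  skew : Hᵀ * Matrix.diagonal (av c) = -(Matrix.diagonal (av c) * H)
  pos : ∀ v : ι → ℂ, v ≠ 0 → 0 < (v ⬝ᵥ (Matrix.diagonal (av c) *ᵥ ((1 - (2 : ℂ) • (H * H)) *ᵥ star v))).re

/-- conjugation by a real isometry -/
theorem GH.conj' {c : ι → ℚ} {H : Matrix ι ι ℂ} (G : GH c H) {g gi : Matrix ι ι ℝ} (h1 : g * gi = 1) (h2 : gi * g = 1)
    (hg : (PGN.rC g)ᵀ * Matrix.diagonal (av c) * PGN.rC g = Matrix.diagonal (av c)) :
    GH c (PGN.rC g * H * PGN.rC gi) := by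
  have c1 : PGN.rC g * PGN.rC gi = 1 := by rw [← PGN.rC_mul, h1, PGN.rC_one]
  have c2 : PGN.rC gi * PGN.rC g = 1 := by rw [← PGN.rC_mul, h2, PGN.rC_one]
  have c3 : (PGN.rC gi)ᵀ * Matrix.diagonal (av c) * PGN.rC gi = Matrix.diagonal (av c) := by
    rw [← hg]
    calc (PGN.rC gi)ᵀ * ((PGN.rC g)ᵀ * Matrix.diagonal (av c) * PGN.rC g) * PGN.rC gi
        = (PGN.rC g * PGN.rC gi)ᵀ * Matrix.diagonal (av c) * (PGN.rC g * PGN.rC gi) := by
          rw [Matrix.transpose_mul]; simp only [mul_assoc]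
      _ = (PGN.rC g)ᵀ * Matrix.diagonal (av c) * PGN.rC g := by
          rw [c1, Matrix.transpose_one, one_mul, mul_one, hg]
  have hsq : (PGN.rC g * H * PGN.rC gi) * (PGN.rC g * H * PGN.rC gi) = PGN.rC g * (H * H) * PGN.rC gi := by
    calc _ = PGN.rC g * H * (PGN.rC gi * PGN.rC g) * H * PGN.rC gi := by simp only [mul_assoc]
      _ = _ := by rw [c2, mul_one]; simp only [mul_assoc]
  refine ⟨?_, ?_, ?_, ?_⟩
  · rw [hsq]
    calc _ = PGN.rC g * (H * H) * (PGN.rC gi * PGN.rC g) * H * PGN.rC gi := by simp only [mul_assoc]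
      _ = PGN.rC g * (H * H * H) * PGN.rC gi := by rw [c2, mul_one]; simp only [mul_assoc]
      _ = _ := by rw [G.cube]
  · rw [Matrix.map_mul, Matrix.map_mul, PGN.rC_conj, PGN.rC_conj, G.conj, mul_neg, neg_mul]
  · rw [Matrix.transpose_mul, Matrix.transpose_mul]
    have e1 : (PGN.rC g)ᵀ * Matrix.diagonal (av c) = Matrix.diagonal (av c) * PGN.rC gi := by
      calc _ = (PGN.rC g)ᵀ * Matrix.diagonal (av c) * (PGN.rC g * PGN.rC gi) := by rw [c1, mul_one]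
        _ = _ := by rw [← mul_assoc, hg]
    have e2 : (PGN.rC gi)ᵀ * Matrix.diagonal (av c) = Matrix.diagonal (av c) * PGN.rC g := by
      calc _ = (PGN.rC gi)ᵀ * Matrix.diagonal (av c) * (PGN.rC gi * PGN.rC g) := by rw [c2, mul_one]
        _ = _ := by rw [← mul_assoc, c3]
    calc (PGN.rC gi)ᵀ * (Hᵀ * (PGN.rC g)ᵀ) * Matrix.diagonal (av c)
        = (PGN.rC gi)ᵀ * (Hᵀ * ((PGN.rC g)ᵀ * Matrix.diagonal (av c))) := by simp only [mul_assoc]
      _ = (PGN.rC gi)ᵀ * ((Hᵀ * Matrix.diagonal (av c)) * PGN.rC gi) := by rw [e1]; simp only [mul_assoc]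
      _ = -(((PGN.rC gi)ᵀ * Matrix.diagonal (av c)) * H * PGN.rC gi) := by
          rw [G.skew]; simp only [neg_mul, mul_neg, mul_assoc]
      _ = _ := by rw [e2]; simp only [mul_assoc]
  · intro v hv0
    obtain ⟨u, hu⟩ : ∃ u, u = PGN.rC gi *ᵥ v := ⟨_, rfl⟩
    have hvu : v = PGN.rC g *ᵥ u := by rw [hu, Matrix.mulVec_mulVec, c1, Matrix.one_mulVec]
    have hu0 : u ≠ 0 := by
      intro h
      rw [h, Matrix.mulVec_zero] at hvu
      exact hv0 hvu
    have h4 := G.pos u hu0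
    have e3 : (1 - (2 : ℂ) • (PGN.rC g * (H * H) * PGN.rC gi)) * PGN.rC g = PGN.rC g * (1 - (2 : ℂ) • (H * H)) := by
      rw [sub_mul, mul_sub, one_mul, mul_one, smul_mul_assoc, mul_smul_comm, mul_assoc, c2, mul_one]
    have h5 : v ⬝ᵥ (Matrix.diagonal (av c) *ᵥ ((1 - (2 : ℂ) • ((PGN.rC g * H * PGN.rC gi) * (PGN.rC g * H * PGN.rC gi))) *ᵥ star v)) =
        u ⬝ᵥ (Matrix.diagonal (av c) *ᵥ ((1 - (2 : ℂ) • (H * H)) *ᵥ star u)) := by
      rw [hsq, hvu, PGN.star_rC_mulVec, Matrix.mulVec_mulVec _ _ (PGN.rC g), e3, ← Matrix.mulVec_mulVec,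
        ← Matrix.vecMul_transpose, ← Matrix.dotProduct_mulVec, Matrix.mulVec_mulVec, Matrix.mulVec_mulVec, hg]
    rw [h5]
    exact h4

/-- the operator of the norm -/
noncomputable def NH (H : Matrix ι ι ℂ) : Matrix (ι × ι) (ι × ι) ℂ := Li ι * (H ⊗ₖ (1 : Matrix ι ι ℂ)) * L ι

theorem NH_mul (X Y : Matrix ι ι ℂ) : NH X * NH Y = NH (X * Y) := by
  calc NH X * NH Y = Li ι * (X ⊗ₖ (1 : Matrix ι ι ℂ)) * (L ι * Li ι) * (Y ⊗ₖ (1 : Matrix ι ι ℂ)) * L ι := by
        simp only [NH, mul_assoc]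
    _ = Li ι * ((X ⊗ₖ (1 : Matrix ι ι ℂ)) * (Y ⊗ₖ (1 : Matrix ι ι ℂ))) * L ι := by
        rw [L_mul_Li, mul_one]; simp only [mul_assoc]
    _ = _ := by rw [← Matrix.mul_kronecker_mul, mul_one]; rfl

theorem NH_sub (X Y : Matrix ι ι ℂ) : NH (X - Y) = NH X - NH Y := by
  have h3 : (X - Y) ⊗ₖ (1 : Matrix ι ι ℂ) = X ⊗ₖ (1 : Matrix ι ι ℂ) - Y ⊗ₖ (1 : Matrix ι ι ℂ) := by
    ext i j
    simp only [Matrix.sub_apply, Matrix.kroneckerMap_apply, sub_mul]
  rw [NH, NH, NH, h3, mul_sub, sub_mul]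

theorem NH_smul (a : ℂ) (X : Matrix ι ι ℂ) : NH (a • X) = a • NH X := by
  rw [NH, NH, Matrix.smul_kronecker, mul_smul_comm, smul_mul_assoc]

theorem NH_one : NH (1 : Matrix ι ι ℂ) = 1 := by
  rw [NH, Matrix.one_kronecker_one, mul_one, Li_mul_L]

theorem NH_trace (X : Matrix ι ι ℂ) : (NH X).trace = X.trace * Fintype.card ι := by
  rw [NH, mul_assoc, Matrix.trace_mul_comm, mul_assoc, L_mul_Li, mul_one, Matrix.trace_kronecker, Matrix.trace_one]

/-- the real coefficients at the second place are positive -/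
theorem av'_real {c : ι → ℚ} (hc : ∀ i, c i = 0 ∨ c i = 1) (i : ι) : ∃ r : ℝ, 0 < r ∧ av' c i = (r : ℂ) := by
  rcases hc i with h | h
  · refine ⟨1, one_pos, ?_⟩
    rw [av', h]
    simp
  · refine ⟨Real.sqrt 2, Real.sqrt_pos.2 (by norm_num), ?_⟩
    rw [av', h, r2]
    simp

/-- **The norm is a polarised rational Hodge structure.** -/
theorem GH.isHW {c : ι → ℚ} (hc : ∀ i, c i = 0 ∨ c i = 1) {H : Matrix ι ι ℂ} (G : GH c H) :
    IsHW 2 (Q4 c) {2, 1, 0} (PH24 (NH H)) := by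
  refine isHW_PH24 ?_ ?_ (Q4_symm c) ?_ ?_
  · rw [NH_mul, NH_mul, G.cube]
  · have h3 : (H ⊗ₖ (1 : Matrix ι ι ℂ)).map (starRingEnd ℂ) = -(H ⊗ₖ (1 : Matrix ι ι ℂ)) := by
      ext i j
      have h4 := congrFun (congrFun G.conj i.1) j.1
      rw [Matrix.map_apply] at h4
      rw [Matrix.map_apply, Matrix.neg_apply, Matrix.kroneckerMap_apply, map_mul, h4, Matrix.neg_apply, neg_mul]
      congr 2
      rw [Matrix.one_apply]
      split_ifs <;> simp
    rw [NH, Matrix.map_mul, Matrix.map_mul, L_conj, Li_conj, h3, mul_neg, neg_mul]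
  · have h3 : (H ⊗ₖ (1 : Matrix ι ι ℂ))ᵀ * Dl c = -(Dl c * (H ⊗ₖ (1 : Matrix ι ι ℂ))) := by
      rw [Dl, ← Matrix.kroneckerMap_transpose, Matrix.transpose_one, ← Matrix.mul_kronecker_mul, one_mul,
        ← Matrix.mul_kronecker_mul, mul_one, G.skew]
      ext i j
      simp only [Matrix.neg_apply, Matrix.kroneckerMap_apply, neg_mul]
    rw [toC_Q4, NH, Matrix.transpose_mul, Matrix.transpose_mul, L_transpose, Li_transpose]
    calc L ι * ((H ⊗ₖ (1 : Matrix ι ι ℂ))ᵀ * Li ι) * (L ι * Dl c * L ι)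
        = L ι * (H ⊗ₖ (1 : Matrix ι ι ℂ))ᵀ * (Li ι * L ι) * Dl c * L ι := by simp only [mul_assoc]
      _ = L ι * ((H ⊗ₖ (1 : Matrix ι ι ℂ))ᵀ * Dl c) * L ι := by rw [Li_mul_L, mul_one]; simp only [mul_assoc]
      _ = -(L ι * Dl c * (L ι * Li ι) * (H ⊗ₖ (1 : Matrix ι ι ℂ)) * L ι) := by
          rw [h3, L_mul_Li, mul_one]; simp only [neg_mul, mul_neg, mul_assoc]
      _ = _ := by simp only [mul_assoc]
  · intro v hv0
    obtain ⟨Y, hY⟩ : ∃ Y, Y = L ι *ᵥ v := ⟨_, rfl⟩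
    have hY0 : Y ≠ 0 := by
      intro h
      apply hv0
      rw [← Matrix.one_mulVec v, ← Li_mul_L, ← Matrix.mulVec_mulVec, ← hY, h, Matrix.mulVec_zero]
    obtain ⟨M, hM⟩ : ∃ M, M = 1 - (2 : ℂ) • (H * H) := ⟨_, rfl⟩
    have hN : 1 - (2 : ℂ) • (NH H * NH H) = NH M := by
      rw [NH_mul, hM, NH_sub, NH_one, NH_smul]
    choose ar har0 har using av'_real hc
    have h5 : v ⬝ᵥ (toC (Q4 c) *ᵥ (NH M *ᵥ star v)) =
        ∑ j, (ar j : ℂ) * ((fun i => Y (i, j)) ⬝ᵥ (Matrix.diagonal (av c) *ᵥ (M *ᵥ star (fun i => Y (i, j))))) := by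
      have h6 : v ⬝ᵥ (toC (Q4 c) *ᵥ (NH M *ᵥ star v)) = Y ⬝ᵥ (Dl c *ᵥ ((M ⊗ₖ (1 : Matrix ι ι ℂ)) *ᵥ star Y)) := by
        rw [hY, star_L_mulVec, toC_Q4, NH]
        simp only [← Matrix.mulVec_mulVec]
        rw [Matrix.mulVec_mulVec _ (L ι) (Li ι), L_mul_Li, Matrix.one_mulVec, Matrix.dotProduct_mulVec v,
          ← Matrix.mulVec_transpose, L_transpose]
      rw [h6, dotProduct, Fintype.sum_prod_type_right]
      refine Finset.sum_congr rfl fun j _ => ?_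
      rw [dotProduct, Finset.mul_sum]
      refine Finset.sum_congr rfl fun i _ => ?_
      rw [Dl, Matrix.diagonal_kronecker_diagonal, Matrix.mulVec_diagonal, Matrix.mulVec_diagonal, har]
      have h7 := congrFun (kron_one_mulVec M (star Y) j) i
      rw [h7]
      have h8 : (fun i => star Y (i, j)) = star (fun i => Y (i, j)) := rfl
      rw [h8]
      ring
    rw [hN, h5, Complex.re_sum]
    have hnz : ∃ j, (fun i => Y (i, j)) ≠ 0 := by
      by_contra hcon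
      push Not at hcon
      exact hY0 (funext fun ij => congrFun (hcon ij.2) ij.1)
    obtain ⟨j, hj⟩ := hnz
    refine Finset.sum_pos' (fun k _ => ?_) ⟨j, Finset.mem_univ j, ?_⟩
    · rw [Complex.re_ofReal_mul]
      by_cases hk : (fun i => Y (i, k)) = 0
      · rw [hk]
        simp
      · rw [hM]
        exact le_of_lt (mul_pos (har0 k) (G.pos _ hk))
    · rw [Complex.re_ofReal_mul, hM]
      exact mul_pos (har0 j) (G.pos _ hj)

end NM94

end MH
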