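import Pool.Agent.Helper94.NM.Base
import Pool.Agent.Helper81.PGN.Not4

/-!
Construction of polarised rational Hodge structures with the Hodge numbers `t D, D ^ 2 - 2 t D, t D`: the family, a generic
member, the Mumford-Tate group is not the full group.
-/

set_option linter.unusedSectionVars false

open Matrix
open scoped Kronecker

namespace MH

namespace NM94

open PGN

variable {ι : Type*} [Fintype ι] [DecidableEq ι]

/-- the real coefficients -/
noncomputable def ar (c : ι → ℚ) (i : ι) : ℝ := 1 - c i - Real.sqrt 2 * c i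

/-- the real form -/
noncomputable def Dr (c : ι → ℚ) : Matrix ι ι ℝ := Matrix.diagonal (ar c)

theorem av_eq (c : ι → ℚ) (i : ι) : av c i = (ar c i : ℂ) := by
  rw [av, ar, r2]
  push_cast
  ring

theorem rC_Dr (c : ι → ℚ) : PGN.rC (Dr c) = Matrix.diagonal (av c) := by
  rw [PGN.rC, Dr, Matrix.diagonal_map (map_zero _)]
  congr 1
  funext i
  exact (av_eq c i).symm

/-- the real isometries of the form -/
def GT (c : ι → ℚ) : Set (Matrix ι ι ℝ) := {g | gᵀ * Dr c * g = Dr c}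

theorem isClosed_GT (c : ι → ℚ) : IsClosed (GT c) :=
  isClosed_eq ((continuous_id.matrix_transpose.matrix_mul continuous_const).matrix_mul continuous_id) continuous_const

instance baire_GT (c : ι → ℚ) : BaireSpace (GT c) := by
  have : LocallyCompactSpace (Matrix ι ι ℝ) := inferInstanceAs (LocallyCompactSpace (ι → ι → ℝ))
  have : LocallyCompactSpace (GT c) := (isClosed_GT c).locallyCompactSpace
  infer_instance

variable {c : ι → ℚ} {p : ι → ι} {s : ι → ℂ}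

theorem ar_ne (hc : ∀ i, c i = 0 ∨ c i = 1) (i : ι) : ar c i ≠ 0 := by
  rcases hc i with h | h
  · rw [ar, h]; simp
  · rw [ar, h]
    have : 0 < Real.sqrt 2 := Real.sqrt_pos.2 (by norm_num)
    push_cast
    intro h2
    linarith

/-- the inverse of an isometry -/
noncomputable def gi (c : ι → ℚ) (g : Matrix ι ι ℝ) : Matrix ι ι ℝ :=
  Matrix.diagonal (fun i => (ar c i)⁻¹) * gᵀ * Dr c

theorem gi_mul (hc : ∀ i, c i = 0 ∨ c i = 1) {g : Matrix ι ι ℝ} (hg : g ∈ GT c) : gi c g * g = 1 := by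
  have h1 : gᵀ * Dr c * g = Dr c := hg
  rw [gi, mul_assoc, mul_assoc, ← mul_assoc (gᵀ), h1, Dr, Matrix.diagonal_mul_diagonal, ← Matrix.diagonal_one]
  congr 1
  funext i
  exact inv_mul_cancel₀ (ar_ne hc i)

theorem mul_gi (hc : ∀ i, c i = 0 ∨ c i = 1) {g : Matrix ι ι ℝ} (hg : g ∈ GT c) : g * gi c g = 1 :=
  mul_eq_one_comm.1 (gi_mul hc hg)

theorem gi_cont : Continuous (gi c) := by
  unfold gi
  exact (continuous_const.matrix_mul continuous_id.matrix_transpose).matrix_mul continuous_const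

theorem isom_C {g : Matrix ι ι ℝ} (hg : g ∈ GT c) :
    (PGN.rC g)ᵀ * Matrix.diagonal (av c) * PGN.rC g = Matrix.diagonal (av c) := by
  have h1 : gᵀ * Dr c * g = Dr c := hg
  have h2 := congrArg PGN.rC h1
  rw [PGN.rC_mul, PGN.rC_mul, rC_Dr] at h2
  exact h2

theorem bst_isom {j m : ι} (hj : c j = 1) (hm : c m = 0) (u : ℝ) : (bst j m u)ᵀ * Dr c * bst j m u = Dr c := by
  have hne : j ≠ m := by rintro rfl; rw [hj] at hm; exact one_ne_zero hm
  have h2 : (bst j m u)ᵀ * Dr c = Dr c * bst j m (-u) := by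
    ext x y
    rw [Dr, Matrix.mul_diagonal, Matrix.diagonal_mul, Matrix.transpose_apply]
    have a0 : ar c j = -Real.sqrt 2 := by rw [ar, hj]; push_cast; ring
    have am : ar c m = 1 := by rw [ar, hm]; push_cast; ring
    by_cases hi : x = j
    · subst hi
      by_cases hy : y = x
      · subst hy
        simp only [bst, if_true, cc_neg]
        ring
      · by_cases hy' : y = m
        · subst hy'
          simp only [bst, if_true, if_neg hy, if_neg (Ne.symm hy), a0, am]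
          ring
        · simp only [bst, if_true, if_neg hy, if_neg hy', zero_mul, mul_zero]
    · by_cases hi' : x = m
      · subst hi'
        by_cases hy : y = j
        · subst hy
          simp only [bst, if_true, if_neg hi, if_neg (Ne.symm hi), a0, am]
          ring
        · by_cases hy' : y = x
          · subst hy'
            simp only [bst, if_true, if_neg hy, cc_neg]
            ring
          · simp only [bst, if_true, if_neg hy, if_neg hy', if_neg hi, zero_mul, mul_zero]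
      · by_cases hy : y = j
        · subst hy
          simp only [bst, if_true, if_neg hi', if_neg hi, zero_mul, mul_zero]
        · by_cases hy' : y = m
          · subst hy'
            simp only [bst, if_true, if_neg hy, if_neg hi, if_neg hi', zero_mul, mul_zero]
          · simp only [bst, if_neg hy, if_neg hy', if_neg hi, if_neg hi']
            by_cases hxy : x = y
            · subst hxy
              simp
            · rw [if_neg hxy, if_neg (Ne.symm hxy), zero_mul, mul_zero]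
  rw [h2, mul_assoc, bst_neg_mul hne, mul_one]

/-- the family -/
noncomputable def Hf (c : ι → ℚ) (p : ι → ι) (s : ι → ℂ) (g : Matrix ι ι ℝ) : Matrix ι ι ℂ :=
  PGN.rC g * Hb p s * PGN.rC (gi c g)

theorem Par.gh_Hf (h : Par c p s) {g : Matrix ι ι ℝ} (hg : g ∈ GT c) : GH c (Hf c p s g) :=
  h.gh.conj' (mul_gi h.c01 hg) (gi_mul h.c01 hg) (isom_C hg)

theorem Hf_cont : Continuous fun g => NH (Hf c p s g) := by
  have h1 : Continuous fun g => Hf c p s g :=
    (rC_cont.matrix_mul continuous_const).matrix_mul (rC_cont.comp gi_cont)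
  have h2 : Continuous fun g => (Hf c p s g ⊗ₖ (1 : Matrix ι ι ℂ)) := by
    refine continuous_matrix fun x y => ?_
    simp only [Matrix.kroneckerMap_apply]
    exact (h1.matrix_elem x.1 y.1).mul continuous_const
  exact (continuous_const.matrix_mul h2).matrix_mul continuous_const

theorem PH24_cont {m : Type*} [Fintype m] [DecidableEq m] (q : ℤ) : Continuous fun H : Matrix m m ℂ => PH24 H q := by
  have h2 : Continuous fun H : Matrix m m ℂ => H * H := continuous_id.matrix_mul continuous_id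
  have h1 : Continuous fun H : Matrix m m ℂ => H := continuous_id
  unfold PH24
  split_ifs
  · exact (continuous_const_smul (1 / 2 : ℂ)).comp (h2.add h1)
  · exact (continuous_const_smul (1 / 2 : ℂ)).comp (h2.sub h1)
  · exact continuous_const.sub h2
  · exact continuous_const

/-- a rational matrix that commutes with all the projections of an open part of the family is a scalar -/
theorem Par.hgen (h : Par c p s) {j0 j1 m0 : ι} (hj0 : c j0 = 1) (hj1 : c j1 = 1) (hj : j0 ≠ j1) (hm0 : c m0 = 0)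
    (U : Set (GT c)) (hU : IsOpen U) (hne : U.Nonempty) (A : Matrix (ι × ι) (ι × ι) ℚ)
    (hA : ∀ t ∈ U, ∀ q, toC A * PH24 (NH (Hf c p s (t : Matrix ι ι ℝ))) q =
      PH24 (NH (Hf c p s (t : Matrix ι ι ℝ))) q * toC A) :
    ∃ z : ℚ, A = z • (1 : Matrix (ι × ι) (ι × ι) ℚ) := by
  obtain ⟨⟨g, hg⟩, hgU⟩ := hne
  obtain ⟨E, hE⟩ : ∃ E, E = L ι * toC A * Li ι := ⟨_, rfl⟩
  have hEt : ∀ t ∈ U, E * (Hf c p s (t : Matrix ι ι ℝ) ⊗ₖ (1 : Matrix ι ι ℂ)) =
      (Hf c p s (t : Matrix ι ι ℝ) ⊗ₖ (1 : Matrix ι ι ℂ)) * E := by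
    intro t ht
    have h1 := PH24_comm (hA t ht)
    rw [NH] at h1
    rw [hE]
    calc L ι * toC A * Li ι * (Hf c p s (t : Matrix ι ι ℝ) ⊗ₖ (1 : Matrix ι ι ℂ))
        = L ι * (toC A * (Li ι * (Hf c p s (t : Matrix ι ι ℝ) ⊗ₖ (1 : Matrix ι ι ℂ)) * L ι)) * Li ι := by
          simp only [mul_assoc]; rw [L_mul_Li, mul_one]
      _ = L ι * (Li ι * (Hf c p s (t : Matrix ι ι ℝ) ⊗ₖ (1 : Matrix ι ι ℂ)) * L ι * toC A) * Li ι := by rw [h1]
      _ = (L ι * Li ι) * (Hf c p s (t : Matrix ι ι ℝ) ⊗ₖ (1 : Matrix ι ι ℂ)) * (L ι * toC A * Li ι) := by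
          simp only [mul_assoc]
      _ = _ := by rw [L_mul_Li, one_mul]
  have c1 : PGN.rC g * PGN.rC (gi c g) = 1 := by rw [← PGN.rC_mul, mul_gi h.c01 hg, PGN.rC_one]
  have c2 : PGN.rC (gi c g) * PGN.rC g = 1 := by rw [← PGN.rC_mul, gi_mul h.c01 hg, PGN.rC_one]
  -- each block is a scalar
  have hblock : ∀ j l : ι, ∃ z : ℂ, (Matrix.of fun i k => E (i, j) (k, l)) = z • (1 : Matrix ι ι ℂ) := by
    intro j l
    obtain ⟨b, hb⟩ : ∃ b : Matrix ι ι ℂ, b = Matrix.of fun i k => E (i, j) (k, l) := ⟨_, rfl⟩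
    rw [← hb]
    have hbt : ∀ t ∈ U, b * Hf c p s (t : Matrix ι ι ℝ) = Hf c p s (t : Matrix ι ι ℝ) * b := by
      intro t ht
      rw [hb]
      exact block_comm (hEt t ht) j l
    have hconj : ∀ {X : Matrix ι ι ℂ}, b * (PGN.rC g * X * PGN.rC (gi c g)) = (PGN.rC g * X * PGN.rC (gi c g)) * b →
        (PGN.rC (gi c g) * b * PGN.rC g) * X = X * (PGN.rC (gi c g) * b * PGN.rC g) := by
      intro X hX
      calc (PGN.rC (gi c g) * b * PGN.rC g) * X
          = PGN.rC (gi c g) * (b * (PGN.rC g * X * PGN.rC (gi c g))) * PGN.rC g := by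
            simp only [mul_assoc]; rw [c2, mul_one]
        _ = PGN.rC (gi c g) * ((PGN.rC g * X * PGN.rC (gi c g)) * b) * PGN.rC g := by rw [hX]
        _ = (PGN.rC (gi c g) * PGN.rC g) * X * (PGN.rC (gi c g) * b * PGN.rC g) := by simp only [mul_assoc]
        _ = _ := by rw [c2, one_mul]
    have hF : ∀ j m, c j = 1 → c m = 0 →
        (PGN.rC (gi c g) * b * PGN.rC g) * F j m = F j m * (PGN.rC (gi c g) * b * PGN.rC g) := by
      intro j m hj hm
      have hjm : p j ≠ m := by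
        intro hh
        have h3 := h.cp j
        rw [hh, hm, hj] at h3
        exact zero_ne_one h3
      have hpj : c (p j) = 1 := by rw [h.cp, hj]
      have hiso : ∀ u : ℝ, g * bst (p j) m u ∈ GT c := by
        intro u
        have hg' : gᵀ * Dr c * g = Dr c := hg
        show (g * bst (p j) m u)ᵀ * Dr c * (g * bst (p j) m u) = Dr c
        rw [Matrix.transpose_mul]
        calc _ = (bst (p j) m u)ᵀ * (gᵀ * Dr c * g) * bst (p j) m u := by simp only [mul_assoc]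
          _ = _ := by rw [hg', bst_isom hpj hm]
      have hcont : Continuous fun u : ℝ => (⟨g * bst (p j) m u, hiso u⟩ : GT c) :=
        Continuous.subtype_mk (continuous_const.matrix_mul (bst_cont (p j) m)) _
      have hV : IsOpen ((fun u : ℝ => (⟨g * bst (p j) m u, hiso u⟩ : GT c)) ⁻¹' U) := hU.preimage hcont
      have h0V : (0 : ℝ) ∈ ((fun u : ℝ => (⟨g * bst (p j) m u, hiso u⟩ : GT c)) ⁻¹' U) := by
        rw [Set.mem_preimage]
        have h2 : (⟨g * bst (p j) m 0, hiso 0⟩ : GT c) = ⟨g, hg⟩ := by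
          apply Subtype.ext
          show g * bst (p j) m 0 = g
          rw [bst_zero hjm, mul_one]
        rw [h2]
        exact hgU
      obtain ⟨ε, hε, hball⟩ := Metric.isOpen_iff.1 hV 0 h0V
      have key : ∀ u : ℝ, |u| < ε → (PGN.rC (gi c g) * b * PGN.rC g) *
          (PGN.rC (bst (p j) m u) * Hb p s * PGN.rC (bst (p j) m (-u))) =
          (PGN.rC (bst (p j) m u) * Hb p s * PGN.rC (bst (p j) m (-u))) * (PGN.rC (gi c g) * b * PGN.rC g) := by
        intro u hu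
        apply hconj
        have h2 := hbt _ (hball (by rwa [Metric.mem_ball, Real.dist_eq, sub_zero]))
        have h3 : gi c (g * bst (p j) m u) = bst (p j) m (-u) * gi c g := by
          have h4 := gi_mul h.c01 (hiso u)
          have h5 : (g * bst (p j) m u) * (bst (p j) m (-u) * gi c g) = 1 := by
            calc _ = g * (bst (p j) m u * bst (p j) m (-u)) * gi c g := by simp only [mul_assoc]
              _ = 1 := by rw [bst_mul_neg hjm, mul_one, mul_gi h.c01 hg]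
          exact left_inv_eq_right_inv h4 h5
        have h6 : Hf c p s (g * bst (p j) m u) =
            PGN.rC g * (PGN.rC (bst (p j) m u) * Hb p s * PGN.rC (bst (p j) m (-u))) * PGN.rC (gi c g) := by
          rw [Hf, h3, PGN.rC_mul, PGN.rC_mul]
          simp only [mul_assoc]
        rw [← h6]
        exact h2
      have hu : 0 < ε / 2 := by linarith
      have k1 := key (ε / 2) (by rw [abs_of_pos hu]; linarith)
      have k2 := key (-(ε / 2)) (by rw [abs_neg, abs_of_pos hu]; linarith)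
      rw [neg_neg] at k2
      have k3 := h.odd hpj hm (ε / 2)
      rw [h.inv] at k3
      have k4 : (PGN.rC (gi c g) * b * PGN.rC g) * ((2 * ((ε / 2 : ℝ) : ℂ) * s (p j)) • F j m) =
          ((2 * ((ε / 2 : ℝ) : ℂ) * s (p j)) • F j m) * (PGN.rC (gi c g) * b * PGN.rC g) := by
        rw [← k3, mul_sub, sub_mul, k1, k2]
      rw [mul_smul_comm, smul_mul_assoc] at k4
      refine smul_right_injective _ ?_ k4
      have h7 : s (p j) ≠ 0 := by
        intro hh
        have h8 := h.s1 (p j) hpj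
        rw [hh, mul_zero] at h8
        norm_num at h8
      refine mul_ne_zero (mul_ne_zero two_ne_zero ?_) h7
      exact_mod_cast hu.ne'
    obtain ⟨z, hz⟩ := scalar_of_F hF h.c01 hj0 hj1 hj hm0
    refine ⟨z, ?_⟩
    calc b = (PGN.rC g * PGN.rC (gi c g)) * b * (PGN.rC g * PGN.rC (gi c g)) := by rw [c1, one_mul, mul_one]
      _ = PGN.rC g * (PGN.rC (gi c g) * b * PGN.rC g) * PGN.rC (gi c g) := by simp only [mul_assoc]
      _ = _ := by rw [hz, mul_smul_comm, mul_one, smul_mul_assoc, c1]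
  choose la hla using hblock
  refine scalar_of_factor j0 la fun i j k l => ?_
  rw [← hE]
  have h1 := congrFun (congrFun (hla j l) i) k
  rw [Matrix.of_apply, Matrix.smul_apply, Matrix.one_apply, smul_eq_mul] at h1
  rw [h1]
  split_ifs <;> simp

/-! ### traces -/

theorem Par.trace_Hf (h : Par c p s) {g : Matrix ι ι ℝ} (hg : g ∈ GT c) : (Hf c p s g).trace = 0 := by
  rw [Hf, mul_assoc, Matrix.trace_mul_comm, mul_assoc, ← PGN.rC_mul, gi_mul h.c01 hg, PGN.rC_one, mul_one, Matrix.trace]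
  refine Finset.sum_eq_zero fun i _ => ?_
  rw [Matrix.diag_apply, Hb]
  rcases h.c01 i with h0 | h1
  · rw [h.s0 i h0, ite_self]
  · rw [if_neg (h.p1 i h1)]

theorem Par.trace_sq (h : Par c p s) {g : Matrix ι ι ℝ} (hg : g ∈ GT c) :
    (Hf c p s g * Hf c p s g).trace = ∑ i, (c i : ℂ) := by
  have c2 : PGN.rC (gi c g) * PGN.rC g = 1 := by rw [← PGN.rC_mul, gi_mul h.c01 hg, PGN.rC_one]
  have h1 : Hf c p s g * Hf c p s g = PGN.rC g * (Hb p s * Hb p s) * PGN.rC (gi c g) := by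
    calc _ = PGN.rC g * Hb p s * (PGN.rC (gi c g) * PGN.rC g) * Hb p s * PGN.rC (gi c g) := by
          simp only [Hf, mul_assoc]
      _ = _ := by rw [c2, mul_one]; simp only [mul_assoc]
  rw [h1, mul_assoc, Matrix.trace_mul_comm, mul_assoc, c2, mul_one, h.sq, Matrix.trace_diagonal]

/-! ### not the full group -/

theorem Dl_U2 {i0 i1 : ι} (h0 : c i0 = 1) (h1 : c i1 = 1) : Dl c * U2 i0 i1 = (-2 : ℂ) • U2 i0 i1 := by
  ext x k
  rw [Dl, Matrix.diagonal_kronecker_diagonal, Matrix.diagonal_mul, Matrix.smul_apply, smul_eq_mul]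
  by_cases h : x = ![(i0, i0), (i1, i1)] k
  · have e1 : av c x.1 * av' c x.2 = -2 := by
      have g1 : c x.1 = 1 := by
        rw [h]
        fin_cases k <;> simp [h0, h1]
      have g2 : c x.2 = 1 := by
        rw [h]
        fin_cases k <;> simp [h0, h1]
      rw [av, av', g1, g2]
      push_cast
      linear_combination (-1 : ℂ) * r2_sq
    rw [e1]
  · rw [U2, if_neg h, mul_zero, mul_zero]

theorem Dl_transpose : (Dl c)ᵀ = Dl c := by
  rw [Dl, Matrix.diagonal_kronecker_diagonal, Matrix.diagonal_transpose]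

theorem U2_Dl {i0 i1 : ι} (h0 : c i0 = 1) (h1 : c i1 = 1) : (U2 i0 i1)ᵀ * Dl c = (-2 : ℂ) • (U2 i0 i1)ᵀ := by
  rw [← Dl_transpose, ← Matrix.transpose_mul, Dl_U2 h0 h1, Matrix.transpose_smul]

theorem rot_Dl {i0 i1 : ι} (h0 : c i0 = 1) (h1 : c i1 = 1) : Dl c * rot i0 i1 = rot i0 i1 * Dl c := by
  rw [rot, mul_add, add_mul, mul_one, one_mul, ← Matrix.mul_assoc, Dl_U2 h0 h1, Matrix.mul_assoc, Matrix.mul_assoc,
    U2_Dl h0 h1, Matrix.smul_mul, Matrix.mul_smul, Matrix.mul_smul]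

/-- the rotation is an isometry -/
theorem rot_isom {i0 i1 : ι} (h0 : c i0 = 1) (h1 : c i1 = 1) (h : i0 ≠ i1) :
    (rot i0 i1)ᵀ * toC (Q4 c) * rot i0 i1 = toC (Q4 c) := by
  have e1 : (rot i0 i1)ᵀ * L ι = L ι * (rot i0 i1)ᵀ := by
    have := congrArg Matrix.transpose (rot_L (ι := ι) (i0 := i0) (i1 := i1))
    rw [Matrix.transpose_mul, Matrix.transpose_mul, L_transpose] at this
    exact this.symm
  calc (rot i0 i1)ᵀ * toC (Q4 c) * rot i0 i1
      = ((rot i0 i1)ᵀ * L ι) * Dl c * (L ι * rot i0 i1) := by rw [toC_Q4]; simp only [mul_assoc]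
    _ = L ι * ((rot i0 i1)ᵀ * (Dl c * rot i0 i1)) * L ι := by rw [e1, ← rot_L]; simp only [mul_assoc]
    _ = L ι * ((rot i0 i1)ᵀ * rot i0 i1 * Dl c) * L ι := by rw [rot_Dl h0 h1]; simp only [mul_assoc]
    _ = toC (Q4 c) := by rw [rot_tr_mul h, one_mul, toC_Q4]

/-- **The Mumford-Tate group is not the full group.** -/
theorem notMT4 {i0 i1 : ι} (h0 : c i0 = 1) (h1 : c i1 = 1) (h : i0 ≠ i1) {S : Finset ℤ}
    {P : ℤ → Matrix (ι × ι) (ι × ι) ℂ} (hI : Idm S P) {h' : Matrix ι ι ℂ}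
    (hP : ∑ q ∈ S, (q : ℂ) • P q = NH h') :
    ∃ g : GL (ι × ι) ℂ, IsGQ 2 (Q4 c) g ∧ g ∉ MT S P := by
  refine ⟨rotG h, ⟨1, fun _ => rfl, ?_, fun _ => ?_⟩, fun hg => ?_⟩
  · change (rot i0 i1)ᵀ * toC (Q4 c) * rot i0 i1 = _
    rw [rot_isom h0 h1 h, one_pow, one_smul]
  · change (rot i0 i1).det = _
    rw [rot_det h, one_pow]
  · have hL : (Li ι ⊗ₖ Li ι) * (L ι ⊗ₖ L ι) = 1 := by
      rw [← Matrix.mul_kronecker_mul, Li_mul_L, Matrix.one_kronecker_one]
    have hL' : (L ι ⊗ₖ L ι) * (Li ι ⊗ₖ Li ι) = 1 := by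
      rw [← Matrix.mul_kronecker_mul, L_mul_Li, Matrix.one_kronecker_one]
    have hH : (∑ q ∈ S, (q : ℂ) • P q) ⊗ₖ (1 : Matrix (ι × ι) (ι × ι) ℂ) +
        (1 : Matrix (ι × ι) (ι × ι) ℂ) ⊗ₖ (∑ q ∈ S, (q : ℂ) • P q) =
        (Li ι ⊗ₖ Li ι) * ((h' ⊗ₖ (1 : Matrix ι ι ℂ)) ⊗ₖ (1 : Matrix (ι × ι) (ι × ι) ℂ) +
          (1 : Matrix (ι × ι) (ι × ι) ℂ) ⊗ₖ (h' ⊗ₖ (1 : Matrix ι ι ℂ))) * (L ι ⊗ₖ L ι) := by
      rw [mul_add, add_mul, ← Matrix.mul_kronecker_mul, ← Matrix.mul_kronecker_mul, ← Matrix.mul_kronecker_mul,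
        ← Matrix.mul_kronecker_mul, mul_one, Li_mul_L, hP, NH]
    have hc := mt_comm_kron hI (B := BB ι ℚ) (by
      rw [toC_BB, BB_eq, hH]
      calc (Li ι ⊗ₖ Li ι) * ((h' ⊗ₖ (1 : Matrix ι ι ℂ)) ⊗ₖ (1 : Matrix (ι × ι) (ι × ι) ℂ) +
            (1 : Matrix (ι × ι) (ι × ι) ℂ) ⊗ₖ (h' ⊗ₖ (1 : Matrix ι ι ℂ))) * (L ι ⊗ₖ L ι) *
            ((Li ι ⊗ₖ Li ι) * PGN.EE ι ℂ * (L ι ⊗ₖ L ι))
          = (Li ι ⊗ₖ Li ι) * (((h' ⊗ₖ (1 : Matrix ι ι ℂ)) ⊗ₖ (1 : Matrix (ι × ι) (ι × ι) ℂ) +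
            (1 : Matrix (ι × ι) (ι × ι) ℂ) ⊗ₖ (h' ⊗ₖ (1 : Matrix ι ι ℂ))) * ((L ι ⊗ₖ L ι) * (Li ι ⊗ₖ Li ι)) *
              PGN.EE ι ℂ) * (L ι ⊗ₖ L ι) := by simp only [mul_assoc]
        _ = (Li ι ⊗ₖ Li ι) * (PGN.EE ι ℂ * ((L ι ⊗ₖ L ι) * (Li ι ⊗ₖ Li ι)) *
            ((h' ⊗ₖ (1 : Matrix ι ι ℂ)) ⊗ₖ (1 : Matrix (ι × ι) (ι × ι) ℂ) +
            (1 : Matrix (ι × ι) (ι × ι) ℂ) ⊗ₖ (h' ⊗ₖ (1 : Matrix ι ι ℂ)))) * (L ι ⊗ₖ L ι) := by
              rw [hL', mul_one, mul_one, EE_comm]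
        _ = _ := by simp only [mul_assoc]) hg
    change toC (BB ι ℚ) * (rot i0 i1 ⊗ₖ rot i0 i1) = (rot i0 i1 ⊗ₖ rot i0 i1) * toC (BB ι ℚ) at hc
    rw [toC_BB, BB_eq] at hc
    have c1 : (L ι ⊗ₖ L ι) * (rot i0 i1 ⊗ₖ rot i0 i1) = (rot i0 i1 ⊗ₖ rot i0 i1) * (L ι ⊗ₖ L ι) := by
      rw [← Matrix.mul_kronecker_mul, ← Matrix.mul_kronecker_mul, rot_L]
    have c2 : (rot i0 i1 ⊗ₖ rot i0 i1) * (Li ι ⊗ₖ Li ι) = (Li ι ⊗ₖ Li ι) * (rot i0 i1 ⊗ₖ rot i0 i1) := by
      rw [← Matrix.mul_kronecker_mul, ← Matrix.mul_kronecker_mul, rot_Li]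
    have hE : PGN.EE ι ℂ * (rot i0 i1 ⊗ₖ rot i0 i1) = (rot i0 i1 ⊗ₖ rot i0 i1) * PGN.EE ι ℂ := by
      calc PGN.EE ι ℂ * (rot i0 i1 ⊗ₖ rot i0 i1)
          = (L ι ⊗ₖ L ι) * ((Li ι ⊗ₖ Li ι) * PGN.EE ι ℂ * ((rot i0 i1 ⊗ₖ rot i0 i1) * (L ι ⊗ₖ L ι))) * (Li ι ⊗ₖ Li ι) := by
            calc PGN.EE ι ℂ * (rot i0 i1 ⊗ₖ rot i0 i1) = ((L ι ⊗ₖ L ι) * (Li ι ⊗ₖ Li ι)) * PGN.EE ι ℂ *
                  (rot i0 i1 ⊗ₖ rot i0 i1) * ((L ι ⊗ₖ L ι) * (Li ι ⊗ₖ Li ι)) := by rw [hL', one_mul, mul_one]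
              _ = _ := by simp only [mul_assoc]
        _ = (L ι ⊗ₖ L ι) * ((rot i0 i1 ⊗ₖ rot i0 i1) * ((Li ι ⊗ₖ Li ι) * PGN.EE ι ℂ * (L ι ⊗ₖ L ι))) *
              (Li ι ⊗ₖ Li ι) := by
            rw [← c1, ← hc]
            simp only [mul_assoc]
        _ = ((L ι ⊗ₖ L ι) * (rot i0 i1 ⊗ₖ rot i0 i1)) * (Li ι ⊗ₖ Li ι) * PGN.EE ι ℂ *
              ((L ι ⊗ₖ L ι) * (Li ι ⊗ₖ Li ι)) := by simp only [mul_assoc]
        _ = (rot i0 i1 ⊗ₖ rot i0 i1) * ((L ι ⊗ₖ L ι) * (Li ι ⊗ₖ Li ι)) * PGN.EE ι ℂ := by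
            rw [c1, hL', mul_one]
            simp only [mul_assoc]
            rw [← mul_assoc (L ι ⊗ₖ L ι), hL', one_mul]
        _ = _ := by rw [hL', mul_one]
    have hv := congrFun (congrFun hE ((i1, i0), (i0, i1))) ((i0, i0), (i0, i0))
    rw [PGN.EE, add_mul, mul_add, Matrix.add_apply, Matrix.add_apply, pw_mul, pw_mul, mul_pw ps1_inv, mul_pw ps2_inv] at hv
    simp only [ps1, ps2, Matrix.kroneckerMap_apply] at hv
    have r00 : rot i0 i1 (i0, i0) (i0, i0) = 3 / 5 := by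
      rw [rot_apply]
      simp [U2, W2, Fin.sum_univ_two, h, h.symm]
    have r10 : rot i0 i1 (i1, i1) (i0, i0) = 4 / 5 := by
      rw [rot_apply]
      simp [U2, W2, Fin.sum_univ_two, h, h.symm]
    have r2' : rot i0 i1 (i1, i0) (i0, i0) = 0 := by
      rw [rot_apply]
      simp [U2, W2, Fin.sum_univ_two, h, h.symm]
    rw [r00, r10, r2'] at hv
    norm_num at hv

/-! ### the concrete data -/

/-- the index set -/
abbrev Ix (t m : ℕ) := (Fin t ⊕ Fin t) ⊕ Fin m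

/-- the characteristic function -/
def cI (t m : ℕ) : Ix t m → ℚ := Sum.elim (fun _ => 1) fun _ => 0

/-- the involution -/
def pI (t m : ℕ) : Ix t m → Ix t m := Sum.map Sum.swap id

/-- the coefficients -/
noncomputable def sI (t m : ℕ) : Ix t m → ℂ := Sum.elim (Sum.elim (fun _ => -Complex.I) fun _ => Complex.I) fun _ => 0

theorem par_I (t m : ℕ) : Par (cI t m) (pI t m) (sI t m) where
  inv := by
    rintro ((k | k) | k) <;> rfl
  cp := by
    rintro ((k | k) | k) <;> rfl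
  sp := by
    rintro ((k | k) | k)
    · simp [pI, sI]
    · simp [pI, sI]
    · simp [pI, sI]
  c01 := by
    rintro ((k | k) | k)
    · exact Or.inr rfl
    · exact Or.inr rfl
    · exact Or.inl rfl
  s0 := by
    rintro ((k | k) | k) h
    · exact absurd h (by simp [cI])
    · exact absurd h (by simp [cI])
    · rfl
  p0 := by
    rintro ((k | k) | k) h
    · exact absurd h (by simp [cI])
    · exact absurd h (by simp [cI])
    · rfl
  s1 := by
    rintro ((k | k) | k) h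
    · simp [sI]
    · simp [sI]
    · exact absurd h (by simp [cI])
  p1 := by
    rintro ((k | k) | k) h
    · simp [pI]
    · simp [pI]
    · exact absurd h (by simp [cI])
  sc := by
    rintro ((k | k) | k)
    · simp [sI]
    · simp [sI]
    · simp [sI]

end NM94

open NM94 in
/-- For all `t ≥ 1` and `D > 2 t` there is a polarised rational Hodge structure with the Hodge numbers `D t`,
`D ^ 2 - 2 D t`, `D t`, with the endomorphisms `ℚ`, the Mumford-Tate group of which is smaller than the group of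
similitudes. -/
theorem sharp_norm_gen (D t : ℕ) (ht : 1 ≤ t) (hD : 2 * t < D) :
    ∃ (n : Type) (_ : Fintype n) (_ : DecidableEq n) (Q : Matrix n n ℚ) (P : ℤ → Matrix n n ℂ), IsHW 2 Q {0, 1, 2} P ∧
      (∀ A : Matrix n n ℚ, (∀ p, toC A * P p = P p * toC A) → ∃ c : ℚ, A = c • (1 : Matrix n n ℚ)) ∧
      (P 2).rank = D * t ∧ (P 1).rank + 2 * (D * t) = D ^ 2 ∧ ∃ g : GL n ℂ, IsGQ 2 Q g ∧ g ∉ MT {0, 1, 2} P := by
  obtain ⟨m, rfl⟩ : ∃ m, D = 2 * t + m := ⟨D - 2 * t, by omega⟩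
  have hm : 0 < m := by omega
  have hpar := par_I t m
  have hcard : Fintype.card (Ix t m) = 2 * t + m := by
    simp only [Fintype.card_sum, Fintype.card_fin]
    ring
  have hsum : ∑ i, (cI t m i : ℂ) = 2 * t := by
    rw [Fintype.sum_sum_type, Fintype.sum_sum_type]
    simp [cI]
    ring
  obtain ⟨j0, hj0⟩ : ∃ j : Ix t m, j = Sum.inl (Sum.inl ⟨0, ht⟩) := ⟨_, rfl⟩
  obtain ⟨j1, hj1⟩ : ∃ j : Ix t m, j = Sum.inl (Sum.inr ⟨0, ht⟩) := ⟨_, rfl⟩
  obtain ⟨m0, hm0⟩ : ∃ j : Ix t m, j = Sum.inr ⟨0, hm⟩ := ⟨_, rfl⟩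
  have cj0 : cI t m j0 = 1 := by rw [hj0]; rfl
  have cj1 : cI t m j1 = 1 := by rw [hj1]; rfl
  have cm0 : cI t m m0 = 0 := by rw [hm0]; rfl
  have hj : j0 ≠ j1 := by rw [hj0, hj1]; simp
  have hne : Nonempty (NM94.GT (cI t m)) :=
    ⟨⟨1, by
      show (1 : Matrix (Ix t m) (Ix t m) ℝ)ᵀ * NM94.Dr (cI t m) * 1 = NM94.Dr (cI t m)
      rw [Matrix.transpose_one, one_mul, mul_one]⟩⟩
  obtain ⟨⟨g, hg⟩, hend⟩ := exists_generic27 (T := NM94.GT (cI t m))
    (fun x => PH24 (NH (Hf (cI t m) (pI t m) (sI t m) (x : Matrix (Ix t m) (Ix t m) ℝ))))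
    (fun q => (PH24_cont q).comp (Hf_cont.comp continuous_subtype_val))
    (fun U hU hne A hA => hpar.hgen cj0 cj1 hj cm0 U hU hne A hA)
  have G := hpar.gh_Hf hg
  have H := G.isHW hpar.c01
  have e3 : NH (Hf (cI t m) (pI t m) (sI t m) g) * NH (Hf (cI t m) (pI t m) (sI t m) g) *
      NH (Hf (cI t m) (pI t m) (sI t m) g) = NH (Hf (cI t m) (pI t m) (sI t m) g) := by
    rw [NH_mul, NH_mul, G.cube]
  obtain ⟨r2', r1'⟩ := PH24_ranks e3 (s := (2 * t + m) * t) (h := m * (2 * t + m))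
    (by rw [NH_trace, hpar.trace_Hf hg, zero_mul])
    (by
      rw [NH_mul, NH_trace, hpar.trace_sq hg, hsum, hcard]
      push_cast
      ring)
    (by
      rw [Fintype.card_prod, hcard]
      ring)
  have hS : ({2, 1, 0} : Finset ℤ) = {0, 1, 2} := by decide
  have hI := PH24_idm e3
  have hP : ∑ q ∈ ({2, 1, 0} : Finset ℤ), (q : ℂ) • PH24 (NH (Hf (cI t m) (pI t m) (sI t m) g)) q =
      NH (1 + Hf (cI t m) (pI t m) (sI t m) g) := by
    rw [PH24_grade]
    have e1 : (1 : Matrix (Ix t m) (Ix t m) ℂ) + Hf (cI t m) (pI t m) (sI t m) g =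
        1 - (-1 : ℂ) • Hf (cI t m) (pI t m) (sI t m) g := by
      rw [neg_one_smul, sub_neg_eq_add]
    rw [e1, NH_sub, NH_one, NH_smul, neg_one_smul, sub_neg_eq_add]
  obtain ⟨g', hg1, hg2⟩ := NM94.notMT4 cj0 cj1 hj hI hP
  rw [hS] at H hg2
  refine ⟨Ix t m × Ix t m, inferInstance, inferInstance, NM94.Q4 (cI t m),
    PH24 (NH (Hf (cI t m) (pI t m) (sI t m) g)), H, hend, r2', ?_, g', hg1, hg2⟩
  rw [r1']
  ring

end MH
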